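import Pool.Agent.H26.G6

set_option autoImplicit false

namespace Pool.Agent.Results.MP_1a7a01_al.NonIsomorphic

open Pool.Agent.H26.CTPDefs

/-- For distinct sets `P ≠ Q` of odd primes the groups `CT_P(ℤ)` and `CT_Q(ℤ)` are not
isomorphic. -/
theorem result (P Q : Set ℕ) (hP : IsSetOfOddPrimes P) (hQ : IsSetOfOddPrimes Q) (hne : P ≠ Q) :
    IsEmpty (CTP P ≃* CTP Q) :=
  Pool.Agent.H26.G1.main P Q hP hQ hne

end Pool.Agent.Results.MP_1a7a01_al.NonIsomorphic
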